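import Pool.Agent.H458.AR.Cmb

/-!
# Part SHT: a shattered set from Sauer-Shelah
-/

set_option autoImplicit false

open scoped Classical

namespace Pool.Agent.H548.AR458

open Finset

/-- the number of subsets of `Y` with fewer than `d` elements -/
lemma card_small {V : Type} (Y : Finset V) (d : ℕ) :
    (Y.powerset.filter (fun s => s.card < d)).card ≤ (Y.card + 1) ^ d := by
  have h1 : Y.powerset.filter (fun s => s.card < d)
      ⊆ (Finset.range d).biUnion (fun j => Y.powersetCard j) := by
    intro s hs
    rw [Finset.mem_filter, Finset.mem_powerset] at hs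
    rw [Finset.mem_biUnion]
    exact ⟨s.card, Finset.mem_range.mpr hs.2, Finset.mem_powersetCard.mpr ⟨hs.1, rfl⟩⟩
  calc (Y.powerset.filter (fun s => s.card < d)).card
      ≤ ((Finset.range d).biUnion (fun j => Y.powersetCard j)).card := Finset.card_le_card h1
    _ ≤ ∑ j ∈ Finset.range d, (Y.powersetCard j).card := Finset.card_biUnion_le
    _ ≤ ∑ j ∈ Finset.range d, Y.card ^ j * d.choose j := by
        refine Finset.sum_le_sum fun j hj => ?_
        rw [Finset.card_powersetCard]
        have h2 : 1 ≤ d.choose j := Nat.choose_pos (Finset.mem_range.mp hj).le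
        calc Y.card.choose j ≤ Y.card ^ j := Nat.choose_le_pow _ _
          _ = Y.card ^ j * 1 := (mul_one _).symm
          _ ≤ Y.card ^ j * d.choose j := Nat.mul_le_mul_left _ h2
    _ ≤ ∑ j ∈ Finset.range (d + 1), Y.card ^ j * d.choose j := by
        refine Finset.sum_le_sum_of_subset (Finset.range_subset_range.mpr (Nat.le_succ d))
    _ = (Y.card + 1) ^ d := by
        rw [add_pow]
        refine Finset.sum_congr rfl fun j _ => ?_
        rw [one_pow, mul_one]
        rfl

theorem sht : Pool.Agent.H458.AR.S_SHT := by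
  intro V _ d K Y A hsep hcard
  -- the traces
  set tr : V → Finset V := fun i => Y.filter (fun l => A i l) with htr
  set F : Finset (Finset V) := K.image tr with hF
  have hinj : Set.InjOn tr K := by
    intro i hi j hj hij
    by_contra hne
    obtain ⟨l, hl, hAl⟩ := hsep i hi j hj hne
    apply hAl
    have h : l ∈ tr i ↔ l ∈ tr j := by rw [hij]
    simp only [htr, Finset.mem_filter, hl, true_and] at h
    exact h
  have hFc : F.card = K.card := Finset.card_image_of_injOn hinj
  have h1 : F.card ≤ F.shatterer.card := Finset.card_le_card_shatterer F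
  -- some shattered set has at least `d` elements
  have h2 : ∃ s ∈ F.shatterer, d ≤ s.card := by
    by_contra hcon
    have hlt : ∀ s ∈ F.shatterer, s.card < d := by
      intro s hs
      by_contra hge
      exact hcon ⟨s, hs, not_lt.mp hge⟩
    have hsub : F.shatterer ⊆ Y.powerset.filter (fun s => s.card < d) := by
      intro s hs
      rw [Finset.mem_filter, Finset.mem_powerset]
      refine ⟨?_, hlt s hs⟩
      obtain ⟨u, hu, hsu⟩ := (Finset.mem_shatterer.mp hs).exists_superset
      rw [hF, Finset.mem_image] at hu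
      obtain ⟨i, _, rfl⟩ := hu
      exact hsu.trans (Finset.filter_subset _ _)
    have h3 := Finset.card_le_card hsub
    have h4 := card_small Y d
    omega
  obtain ⟨s, hs, hds⟩ := h2
  obtain ⟨D, hDs, hDc⟩ := Finset.exists_subset_card_eq hds
  have hsh := Finset.mem_shatterer.mp hs
  obtain ⟨u, hu, hsu⟩ := hsh.exists_superset
  rw [hF, Finset.mem_image] at hu
  obtain ⟨i₀, _, rfl⟩ := hu
  have hsY : s ⊆ Y := hsu.trans (Finset.filter_subset _ _)
  refine ⟨D, hDs.trans hsY, hDc, ?_⟩
  intro P hP
  obtain ⟨u, hu, hsu'⟩ := hsh (hP.trans hDs)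
  rw [hF, Finset.mem_image] at hu
  obtain ⟨i, hi, rfl⟩ := hu
  refine ⟨i, hi, fun l hl => ?_⟩
  have hlY : l ∈ Y := hsY (hDs hl)
  have hls : l ∈ s := hDs hl
  rw [← hsu', Finset.mem_inter]
  simp only [htr, Finset.mem_filter, hlY, hls, true_and]

end Pool.Agent.H548.AR458
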